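import Pool.Agent.Lead.IP.DoeblinA

/-!
The hull form: bilinearity and continuity.
-/

namespace IP.PG
open Finset Filter Topology IP

theorem hull_eq_sum (n : ℕ) (v w : M) (S : Finset St) (hv : v.support ⊆ S) (hw : w.support ⊆ S) :
    hull n v w = open Classical in
      ∑ σ ∈ S, ∑ τ ∈ S, if (σ ⊔ τ) 0 n then v σ * w τ else 0 := by
  classical
  unfold hull
  rw [Finsupp.sum_of_support_subset v hv]
  · apply sum_congr rfl
    intro σ _
    rw [Finsupp.sum_of_support_subset w hw]
    intro τ _
    simp
  · intro σ _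
    rw [Finsupp.sum]
    exact sum_eq_zero fun τ _ => by simp

theorem hull_single_single (n : ℕ) (σ τ : St) (x y : ℝ) :
    hull n (Finsupp.single σ x) (Finsupp.single τ y) = open Classical in
      if (σ ⊔ τ) 0 n then x * y else 0 := by
  classical
  unfold hull
  rw [Finsupp.sum_single_index, Finsupp.sum_single_index]
  · simp
  · rw [Finsupp.sum]
    exact sum_eq_zero fun τ _ => by simp

theorem hull_add_left (n : ℕ) (v v' w : M) : hull n (v + v') w = hull n v w + hull n v' w := by
  classical
  have h := fun (u : M) (hu : u.support ⊆ v.support ∪ v'.support ∪ w.support) =>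
    hull_eq_sum n u w (v.support ∪ v'.support ∪ w.support) hu subset_union_right
  rw [h v (subset_union_left.trans subset_union_left),
    h v' (subset_union_right.trans subset_union_left),
    h (v + v') ((Finsupp.support_add).trans subset_union_left), ← sum_add_distrib]
  apply sum_congr rfl
  intro σ _
  rw [← sum_add_distrib]
  apply sum_congr rfl
  intro τ _
  split_ifs
  · rw [Finsupp.add_apply]; ring
  · simp

theorem hull_comm (n : ℕ) (v w : M) : hull n v w = hull n w v := by
  classical
  rw [hull_eq_sum n v w (v.support ∪ w.support) subset_union_left subset_union_right,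
    hull_eq_sum n w v (v.support ∪ w.support) subset_union_right subset_union_left, sum_comm]
  apply sum_congr rfl
  intro σ _
  apply sum_congr rfl
  intro τ _
  rw [sup_comm, mul_comm]

theorem hull_add_right (n : ℕ) (v w w' : M) : hull n v (w + w') = hull n v w + hull n v w' := by
  rw [hull_comm, hull_add_left, hull_comm, hull_comm n w']

theorem hull_zero_left (n : ℕ) (w : M) : hull n 0 w = 0 := by
  unfold hull
  simp

theorem hull_zero_right (n : ℕ) (v : M) : hull n v 0 = 0 := by
  rw [hull_comm, hull_zero_left]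

theorem hull_sum_left {ι : Type*} (n : ℕ) (F : Finset ι) (v : ι → M) (w : M) :
    hull n (∑ a ∈ F, v a) w = ∑ a ∈ F, hull n (v a) w := by
  classical
  induction F using Finset.induction_on with
  | empty => simp [hull_zero_left]
  | insert a F ha ih => rw [sum_insert ha, sum_insert ha, hull_add_left, ih]

theorem hull_sum_right {ι : Type*} (n : ℕ) (F : Finset ι) (v : M) (w : ι → M) :
    hull n v (∑ a ∈ F, w a) = ∑ a ∈ F, hull n v (w a) := by
  rw [hull_comm, hull_sum_left]
  exact sum_congr rfl fun a _ => hull_comm _ _ _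

theorem hull_sum_sum {ι κ : Type*} (n : ℕ) (F : Finset ι) (G : Finset κ) (σ : ι → St) (τ : κ → St)
    (x y : ℝ) :
    hull n (∑ a ∈ F, Finsupp.single (σ a) x) (∑ b ∈ G, Finsupp.single (τ b) y) =
      open Classical in ∑ a ∈ F, ∑ b ∈ G, if (σ a ⊔ τ b) 0 n then x * y else 0 := by
  classical
  rw [hull_sum_left]
  apply sum_congr rfl
  intro a _
  rw [hull_sum_right]
  apply sum_congr rfl
  intro b _
  rw [hull_single_single]

theorem hull_tendsto (n : ℕ) {v w : ℕ → M} {v' w' : M} (hv : ∀ N, v N ∈ Sup (W n))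
    (hw : ∀ N, w N ∈ Sup (W n)) (hv' : v' ∈ Sup (W n)) (hw' : w' ∈ Sup (W n))
    (h1 : ∀ σ, Tendsto (fun N => v N σ) atTop (𝓝 (v' σ)))
    (h2 : ∀ σ, Tendsto (fun N => w N σ) atTop (𝓝 (w' σ))) :
    Tendsto (fun N => hull n (v N) (w N)) atTop (𝓝 (hull n v' w')) := by
  classical
  have hsub : ∀ u : M, u ∈ Sup (W n) → u.support ⊆ (W_finite n).toFinset := by
    intro u hu σ hσ
    rw [Set.Finite.mem_toFinset]
    exact ((Finsupp.mem_supported ℝ u).1 hu) hσ
  rw [hull_eq_sum n v' w' _ (hsub _ hv') (hsub _ hw')]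
  have e : (fun N => hull n (v N) (w N)) = fun N =>
      ∑ σ ∈ (W_finite n).toFinset, ∑ τ ∈ (W_finite n).toFinset,
        if (σ ⊔ τ) 0 n then v N σ * w N τ else 0 := by
    funext N
    rw [hull_eq_sum n (v N) (w N) _ (hsub _ (hv N)) (hsub _ (hw N))]
  rw [e]
  apply tendsto_finsetSum
  intro σ _
  apply tendsto_finsetSum
  intro τ _
  split_ifs
  · exact (h1 σ).mul (h2 τ)
  · exact tendsto_const_nhds

theorem zero_Cube : (0 : ℕ → ℝ) ∈ Cube := by
  intro j
  simp only [Pi.zero_apply, abs_zero]
  positivity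

theorem T_pow_Sup (n : ℕ) (b : ℕ → ℝ) (N : ℕ) {v : M} (hv : v ∈ Sup (W n)) :
    ((T n b) ^ N) v ∈ Sup (W n) := by
  induction N with
  | zero => simpa using hv
  | succ N ih =>
    rw [pow_succ', Module.End.mul_apply]
    exact T_Sup n b ih

/-- the laws of the two half strips converge to the stationary law -/
theorem hull_T_tendsto (n : ℕ) :
    Tendsto (fun N : ℕ => hull n (((T n 0) ^ (N + 1)) (Finsupp.single (bot n) 1))
      (((T n 0) ^ N) (Finsupp.single (bot n) 1))) atTop (𝓝 (hull n (P n 0) (P n 0))) := by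
  have hb : Finsupp.single (bot n) (1 : ℝ) ∈ Sup (W n) := by
    apply Finsupp.single_mem_supported
    exact bot_W n
  have ht : tot (Finsupp.single (bot n) (1 : ℝ)) = 1 := tot_single _ _
  have h : ∀ σ, Tendsto (fun N : ℕ => ((T n 0) ^ N) (Finsupp.single (bot n) 1) σ) atTop
      (𝓝 (P n 0 σ)) := by
    intro σ
    have := P_tendsto n zero_Cube hb σ
    rwa [ht, one_mul] at this
  apply hull_tendsto n (fun N => T_pow_Sup n 0 _ hb) (fun N => T_pow_Sup n 0 _ hb) (P_Sup n 0)
    (P_Sup n 0) ?_ h
  intro σ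
  exact (h σ).comp (tendsto_add_atTop_nat 1)

end IP.PG
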