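import Pool.Agent.Helper8.PercGlue.Glue92
import Pool.Agent.Helper92.Perc.Sweep

open Finset Filter Topology

namespace H47Perc.DS

theorem sweepThm : SweepThm := law_strip

/-- the exact strip probability, in the limit of infinite height -/
theorem pStrip_tendsto (n : ℕ) (hn : 1 ≤ n) :
    Tendsto (fun M : ℕ => pStrip (2 * n + 1) M) atTop (𝓝 (IP.hull n (IP.P n zb) (IP.P n zb))) :=
  strip_limit sweepThm n hn

end H47Perc.DS
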