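import Mathlib

/-!
Gluing of two partitions along a frontier.
-/

namespace IP.PG

/-- a property closed under two equivalence relations is closed under their supremum -/
theorem closed_sup {V : Type*} (R1 R2 : Setoid V) (Q : V → Prop)
    (h1 : ∀ x y, R1 x y → Q x → Q y) (h2 : ∀ x y, R2 x y → Q x → Q y) :
    ∀ x y, (R1 ⊔ R2) x y → Q x → Q y := by
  have hle : R1 ⊔ R2 ≤ Setoid.comap Q ⟨Eq, eq_equivalence⟩ := by
    apply sup_le
    · intro x y h
      rw [Setoid.comap_rel]
      exact propext ⟨h1 x y h, h1 y x (R1.symm h)⟩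
    · intro x y h
      rw [Setoid.comap_rel]
      exact propext ⟨h2 x y h, h2 y x (R2.symm h)⟩
  intro x y h hx
  have := hle h
  rw [Setoid.comap_rel] at this
  exact (show Q x = Q y from this) ▸ hx

/-- Two equivalence relations which overlap only along the frontier `f` can be restricted to the
frontier before being joined. -/
theorem comap_sup {V : Type*} (R1 R2 : Setoid V) (f : ℕ → V)
    (h : ∀ z, (∀ z', R1 z z' → z' = z) ∨ (∀ z', R2 z z' → z' = z) ∨
      ∃ k, R1 z (f k) ∧ R2 z (f k)) :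
    Setoid.comap f (R1 ⊔ R2) = Setoid.comap f R1 ⊔ Setoid.comap f R2 := by
  set S := Setoid.comap f R1 ⊔ Setoid.comap f R2 with hS
  have s1 : ∀ {i j}, R1 (f i) (f j) → S i j := fun {i j} hij =>
    (le_sup_left : Setoid.comap f R1 ≤ S) (show Setoid.comap f R1 i j from hij)
  have s2 : ∀ {i j}, R2 (f i) (f j) → S i j := fun {i j} hij =>
    (le_sup_right : Setoid.comap f R2 ≤ S) (show Setoid.comap f R2 i j from hij)
  apply le_antisymm
  · intro i j hij
    rw [Setoid.comap_rel] at hij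
    have key := closed_sup R1 R2 (fun z => ∃ k, S i k ∧ (R1 (f k) z ∨ R2 (f k) z)) ?_ ?_
      (f i) (f j) hij ⟨i, S.refl i, Or.inl (R1.refl _)⟩
    · obtain ⟨k, hk, h1 | h2⟩ := key
      · exact S.trans hk (s1 h1)
      · exact S.trans hk (s2 h2)
    · rintro x y hxy ⟨k, hk, hk1 | hk2⟩
      · exact ⟨k, hk, Or.inl (R1.trans hk1 hxy)⟩
      · rcases h x with h' | h' | ⟨m, hm1, hm2⟩
        · rw [h' y hxy]
          exact ⟨k, hk, Or.inr hk2⟩
        · have e := h' (f k) (R2.symm hk2)
          refine ⟨k, hk, Or.inl ?_⟩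
          rw [e]
          exact hxy
        · exact ⟨m, S.trans hk (s2 (R2.trans hk2 hm2)), Or.inl (R1.trans (R1.symm hm1) hxy)⟩
    · rintro x y hxy ⟨k, hk, hk1 | hk2⟩
      · rcases h x with h' | h' | ⟨m, hm1, hm2⟩
        · have e := h' (f k) (R1.symm hk1)
          refine ⟨k, hk, Or.inr ?_⟩
          rw [e]
          exact hxy
        · rw [h' y hxy]
          exact ⟨k, hk, Or.inl hk1⟩
        · exact ⟨m, S.trans hk (s1 (R1.trans hk1 hm1)), Or.inr (R2.trans (R2.symm hm2) hxy)⟩
      · exact ⟨k, hk, Or.inr (R2.trans hk2 hxy)⟩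
  · apply sup_le
    · intro i j hij
      rw [Setoid.comap_rel] at hij ⊢
      exact (le_sup_left : R1 ≤ R1 ⊔ R2) hij
    · intro i j hij
      rw [Setoid.comap_rel] at hij ⊢
      exact (le_sup_right : R2 ≤ R1 ⊔ R2) hij

end IP.PG
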