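import Pool.Agent.Helper92.Perc.PercDefs
import Pool.Agent.Helper8.PercGlue.Glue
import Pool.Agent.Helper8.PercGlue.Hull

/-!
Perc, second half: gluing of the two half strips, reflection, the strip probability as a hull form.
-/

set_option autoImplicit false

namespace H47Perc.DS
open Finset Filter Topology SimpleGraph
open Pool.Agent.Helper69.RSW (Up perc_half_eq P_restrict P_congr P_mono Dep)

lemma fr_zero (n : ℕ) (k : ℕ) : fr n 0 k = (min (k:ℤ) n + 1, min (k:ℤ) n) := by
  simp [fr]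

/-- gluing of the two half strips along the level `x - y = 1` -/
theorem st_union (n : ℕ) {a b : ℤ} {ω ω' : Finset (Sym2 (ℤ × ℤ))}
    (h : ω ⊆ edgesIn (reg n a 1)) (h' : ω' ⊆ edgesIn (reg n 1 b)) :
    st (2 * n + 1) (fr n 0) (ω ∪ ω') =
      st (2 * n + 1) (fr n 0) ω ⊔ st (2 * n + 1) (fr n 0) ω' := by
  unfold st
  rw [cw_union]
  apply IP.PG.comap_sup
  intro z
  by_cases hw : z.1 + z.2 = 2 * n + 1
  · have hn : (fr n 0 n).1 + (fr n 0 n).2 = 2 * n + 1 := by
      rw [fr_zero, min_self]; ring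
    exact Or.inr (Or.inr ⟨n, cw_wall hw hn, cw_wall hw hn⟩)
  by_cases h1 : ∀ u, s(z, u) ∉ ω
  · exact Or.inl fun z' hz' => cw_isolated h1 hw hz'
  by_cases h2 : ∀ u, s(z, u) ∉ ω'
  · exact Or.inr (Or.inl fun z' hz' => cw_isolated h2 hw hz')
  push Not at h1 h2
  obtain ⟨u, hu⟩ := h1
  obtain ⟨u', hu'⟩ := h2
  have m1 := mem_reg.1 (mem_edgesIn.1 (h hu)).1
  have m2 := mem_reg.1 (mem_edgesIn.1 (h' hu')).1
  have hz : z = fr n 0 z.2.toNat := by
    rw [fr_zero]
    have e : ((z.2.toNat : ℕ) : ℤ) = z.2 := Int.toNat_of_nonneg (by omega)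
    rw [e, min_eq_left (by omega)]
    ext
    · simp only; omega
    · rfl
  refine Or.inr (Or.inr ⟨z.2.toNat, ?_, ?_⟩)
  · rw [← hz]
  · rw [← hz]

/-- reflection `(x, y) ↦ (y + 1, x - 1)` -/
def rho : ℤ × ℤ ≃ ℤ × ℤ where
  toFun z := (z.2 + 1, z.1 - 1)
  invFun z := (z.2 + 1, z.1 - 1)
  left_inv z := by simp
  right_inv z := by simp

lemma rho_apply (z : ℤ × ℤ) : rho z = (z.2 + 1, z.1 - 1) := rfl

lemma rho_symm : rho.symm = rho := rfl

lemma rho_iso : IsIso rho := by
  intro u v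
  simp only [rho_apply, lattice]
  constructor
  · rintro (⟨h1, h2⟩ | ⟨h1, h2⟩)
    · right
      refine ⟨by omega, ?_⟩
      rwa [sub_sub_sub_cancel_right] at h2
    · left
      refine ⟨by omega, ?_⟩
      rwa [add_sub_add_right_eq_sub] at h2
  · rintro (⟨h1, h2⟩ | ⟨h1, h2⟩)
    · right
      refine ⟨by omega, ?_⟩
      rwa [add_sub_add_right_eq_sub]
    · left
      refine ⟨by omega, ?_⟩
      rwa [sub_sub_sub_cancel_right]

lemma reg_map_rho (n : ℕ) (b : ℤ) : (reg n (2 - b) 1).map rho.toEmbedding = reg n 1 b := by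
  ext z
  rw [mem_map_equiv, rho_symm, mem_reg, mem_reg, rho_apply]
  simp only
  constructor
  · intro h; omega
  · intro h; omega

lemma cw_map_rho (L : ℤ) (ω : Finset (Sym2 (ℤ × ℤ))) :
    cw L (ω.map (emb rho)) = Setoid.comap rho (cw L ω) := by
  apply le_antisymm
  · rw [cw_le_iff]
    constructor
    · intro u v h
      rw [Finset.mem_map] at h
      obtain ⟨e, he, h⟩ := h
      induction e using Sym2.ind with
      | _ a b =>
        rw [emb_mk, Sym2.eq_iff] at h
        rw [Setoid.comap_rel]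
        have hr : ∀ z, rho (rho z) = z := fun z => rho.left_inv z
        rcases h with ⟨rfl, rfl⟩ | ⟨rfl, rfl⟩
        · rw [hr, hr]; exact cw_edge he
        · rw [hr, hr]; exact (cw L ω).symm (cw_edge he)
    · intro u v h1 h2
      rw [Setoid.comap_rel]
      exact cw_wall (by rw [rho_apply]; simp only; omega) (by rw [rho_apply]; simp only; omega)
  · intro u v h
    rw [Setoid.comap_rel] at h
    have key : cw L ω ≤ Setoid.comap rho (cw L (ω.map (emb rho))) := by
      rw [cw_le_iff]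
      constructor
      · intro a b hab
        rw [Setoid.comap_rel]
        apply cw_edge
        rw [Finset.mem_map]
        exact ⟨s(a, b), hab, rfl⟩
      · intro a b h1 h2
        rw [Setoid.comap_rel]
        exact cw_wall (by rw [rho_apply]; simp only; omega) (by rw [rho_apply]; simp only; omega)
    have := key h
    rw [Setoid.comap_rel] at this
    have hr : ∀ z, rho (rho z) = z := fun z => rho.left_inv z
    rwa [hr, hr] at this

lemma st_map_rho (n : ℕ) (L : ℤ) (ω : Finset (Sym2 (ℤ × ℤ))) :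
    st L (fr n 0) (ω.map (emb rho)) = st L (fr n 0) ω := by
  have hf : ∀ k, rho (fr n 0 k) = fr n 0 k := by
    intro k
    rw [rho_apply, fr_zero]
    simp
  unfold st
  rw [cw_map_rho]
  ext i j
  rw [Setoid.comap_rel, Setoid.comap_rel, hf, hf]
  rfl

/-- reflection `(x, y) ↦ (y + 1, x - 1)` -/
theorem law_reflect (n : ℕ) (b : ℤ) :
    law (2 * n + 1) (edgesIn (reg n 1 b)) (fr n 0) =
      law (2 * n + 1) (edgesIn (reg n (2 - b) 1)) (fr n 0) := by
  unfold law
  rw [← reg_map_rho n b, edgesIn_map rho_iso, card_map]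
  symm
  apply sum_nbij' (i := fun ω => ω.map (emb rho)) (j := fun ω => ω.map (emb rho))
  · intro ω hω
    rw [mem_powerset] at hω ⊢
    exact map_subset_map.2 hω
  · intro ω hω
    rw [mem_powerset] at hω ⊢
    have := (map_subset_map (f := emb rho)).2 hω
    have e := emb_symm_map rho (edgesIn (reg n (2 - b) 1))
    rw [rho_symm] at e
    rwa [e] at this
  · intro ω _
    have e := emb_symm_map rho ω
    rwa [rho_symm] at e
  · intro ω _
    have e := emb_symm_map rho ω
    rwa [rho_symm] at e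
  · intro ω _
    rw [st_map_rho]

lemma cw_of_joined {L : ℤ} {ω : Finset (Sym2 (ℤ × ℤ))} {u v : ℤ × ℤ} (h : Joined ω u v) :
    cw L ω u v := by
  obtain ⟨p⟩ := h
  induction p with
  | nil => exact (cw _ ω).refl _
  | @cons a b c hab p ih =>
    rw [SimpleGraph.fromEdgeSet_adj] at hab
    have hab1 : s(a, b) ∈ ω := by exact_mod_cast hab.1
    exact (cw _ ω).trans (cw_edge hab1) ih

/-- joined to the far line -/
theorem joined_iff_st (n : ℕ) (_hn : 1 ≤ n) {ω : Finset (Sym2 (ℤ × ℤ))} :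
    (∃ z : ℤ × ℤ, z.1 + z.2 = 2 * n + 1 ∧ Joined ω (1, 0) z) ↔
      st (2 * n + 1) (fr n 0) ω 0 n := by
  have f0 : fr n 0 0 = (1, 0) := by
    rw [fr_zero]
    simp
  have fn : (fr n 0 n).1 + (fr n 0 n).2 = 2 * n + 1 := by
    rw [fr_zero, min_self]; ring
  unfold st
  rw [Setoid.comap_rel, f0]
  constructor
  · rintro ⟨z, hz, hj⟩
    exact (cw _ ω).trans (cw_of_joined hj) (cw_wall hz fn)
  · intro h
    set Q : ℤ × ℤ → Prop := fun z => Joined ω (1, 0) z ∨
      ∃ z' : ℤ × ℤ, z'.1 + z'.2 = 2 * n + 1 ∧ Joined ω (1, 0) z' with hQ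
    have hle : cw (2 * n + 1) ω ≤ Setoid.comap Q ⟨Eq, eq_equivalence⟩ := by
      rw [cw_le_iff]
      constructor
      · intro u v huv
        rw [Setoid.comap_rel]
        apply propext
        constructor
        · rintro (h1 | h1)
          · exact Or.inl (joined_trans h1 (joined_edge huv))
          · exact Or.inr h1
        · rintro (h1 | h1)
          · exact Or.inl (joined_trans h1 (joined_symm (joined_edge huv)))
          · exact Or.inr h1
      · intro u v hu hv
        rw [Setoid.comap_rel]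
        apply propext
        constructor
        · rintro (h1 | h1)
          · exact Or.inr ⟨u, hu, h1⟩
          · exact Or.inr h1
        · rintro (h1 | h1)
          · exact Or.inr ⟨v, hv, h1⟩
          · exact Or.inr h1
    have h2 := hle h
    rw [Setoid.comap_rel] at h2
    have h3 : Q (fr n 0 n) := (show Q (1, 0) = Q (fr n 0 n) from h2) ▸ Or.inl (joined_refl _ _)
    rcases h3 with h3 | h3
    · exact ⟨_, fn, h3⟩
    · exact h3

/-- sums over the subsets of a disjoint union -/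
lemma sum_powerset_union {E : Type*} [DecidableEq E] {F G : Finset E} (hFG : Disjoint F G)
    (g : Finset E → ℝ) :
    ∑ S ∈ (F ∪ G).powerset, g S = ∑ S ∈ F.powerset, ∑ T ∈ G.powerset, g (S ∪ T) := by
  rw [← sum_product']
  symm
  apply sum_nbij' (i := fun p : Finset E × Finset E => p.1 ∪ p.2) (j := fun S => (S ∩ F, S ∩ G))
  · rintro ⟨S, T⟩ h
    rw [mem_product, mem_powerset, mem_powerset] at h
    rw [mem_powerset]
    exact union_subset_union h.1 h.2
  · intro S h
    rw [mem_product, mem_powerset, mem_powerset]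
    exact ⟨inter_subset_right, inter_subset_right⟩
  · rintro ⟨S, T⟩ h
    rw [mem_product, mem_powerset, mem_powerset] at h
    obtain ⟨h1, h3⟩ := h
    have e1 : (S ∪ T) ∩ F = S := by
      rw [union_inter_distrib_right, inter_eq_left.2 h1,
        disjoint_iff_inter_eq_empty.1 (hFG.symm.mono_left h3), union_empty]
    have e2 : (S ∪ T) ∩ G = T := by
      rw [union_inter_distrib_right, inter_eq_left.2 h3,
        disjoint_iff_inter_eq_empty.1 (hFG.mono_left h1), empty_union]
    simp only [e1, e2]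
  · intro S h
    rw [mem_powerset] at h
    simp only
    rw [← inter_union_distrib_left, inter_eq_left.2 h]
  · rintro ⟨S, T⟩ _
    rfl

lemma adj_level {u v : ℤ × ℤ} (h : lattice.Adj u v) :
    v.1 - v.2 = u.1 - u.2 + 1 ∨ v.1 - v.2 = u.1 - u.2 - 1 := by
  rcases adj_cases h with h | h | h | h <;> rw [h] <;> simp only <;> omega

lemma edgesIn_strip (n N : ℕ) :
    edgesIn (dstrip (2 * n + 1) (2 * N + 1)) =
      edgesIn (reg n (-(2 * N + 1)) 1) ∪ edgesIn (reg n 1 (2 * N + 1)) := by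
  ext e
  induction e using Sym2.ind with
  | _ u v =>
    rw [mem_union, mem_edgesIn, mem_edgesIn, mem_edgesIn, mem_dstrip, mem_dstrip, mem_reg, mem_reg,
      mem_reg, mem_reg, abs_le, abs_le]
    constructor
    · rintro ⟨h1, h2, h3⟩
      have h4 := adj_level h3
      by_cases hc : u.1 - u.2 ≤ 1 ∧ v.1 - v.2 ≤ 1
      · left
        exact ⟨by omega, by omega, h3⟩
      · right
        exact ⟨by omega, by omega, h3⟩
    · rintro (⟨h1, h2, h3⟩ | ⟨h1, h2, h3⟩)
      · exact ⟨by omega, by omega, h3⟩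
      · exact ⟨by omega, by omega, h3⟩

lemma edgesIn_disj (n : ℕ) (a b : ℤ) :
    Disjoint (edgesIn (reg n a 1)) (edgesIn (reg n 1 b)) := by
  rw [Finset.disjoint_left]
  intro e
  induction e using Sym2.ind with
  | _ u v =>
    rw [mem_edgesIn, mem_edgesIn, mem_reg, mem_reg, mem_reg, mem_reg]
    rintro ⟨h1, h2, h3⟩ ⟨h4, h5, _⟩
    have := adj_level h3
    omega

/-- the strip probability in terms of the laws of the states of the two half strips -/
theorem pStrip_law (n : ℕ) (hn : 1 ≤ n) (N : ℕ) :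
    pStrip (2 * n + 1) (2 * N + 1) =
      IP.hull n (law (2 * n + 1) (edgesIn (reg n (-(2 * N + 1)) 1)) (fr n 0))
        (law (2 * n + 1) (edgesIn (reg n (1 - 2 * N) 1)) (fr n 0)) := by
  classical
  have e1 : (1 - 2 * (N : ℤ)) = 2 - (2 * N + 1) := by ring
  rw [e1, ← law_reflect]
  unfold law
  rw [IP.PG.hull_sum_sum]
  unfold pStrip
  rw [perc_half_eq, edgesIn_strip]
  rw [card_filter]
  push_cast
  rw [sum_powerset_union (edgesIn_disj n _ _), card_union_of_disjoint (edgesIn_disj n _ _),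
    sum_div]
  apply sum_congr rfl
  intro S hS
  rw [sum_div]
  apply sum_congr rfl
  intro T hT
  rw [mem_powerset] at hS hT
  rw [← st_union n hS hT]
  have h := joined_iff_st n hn (ω := S ∪ T)
  by_cases hc : st (2 * n + 1) (fr n 0) (S ∪ T) 0 n
  · rw [if_pos (h.2 hc), if_pos hc, pow_add]
    simp only [one_div, inv_pow, mul_inv_rev]
    ring
  · rw [if_neg (fun h' => hc (h.1 h')), if_neg hc, zero_div]

/-- a larger strip -/
lemma pStrip_mono {L M M' : ℤ} (h : M ≤ M') : pStrip L M ≤ pStrip L M' := by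
  classical
  unfold pStrip
  rw [perc_half_eq, perc_half_eq]
  have hsub : edgesIn (dstrip L M) ⊆ edgesIn (dstrip L M') := by
    apply edgesIn_mono
    intro z hz
    rw [mem_dstrip] at hz ⊢
    exact ⟨hz.1, hz.2.1, hz.2.2.trans h⟩
  have hD : Dep (edgesIn (dstrip L M)) (fun ω : Finset (Sym2 (ℤ × ℤ)) =>
      ∃ z : ℤ × ℤ, z.1 + z.2 = L ∧ Joined (ω ∩ edgesIn (dstrip L M)) (1, 0) z) := by
    intro S
    simp only
    rw [inter_assoc, inter_self]
  have h1 := P_restrict hsub hD
  calc Pool.Agent.Helper69.RSW.P (edgesIn (dstrip L M)) (fun ω =>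
        ∃ z : ℤ × ℤ, z.1 + z.2 = L ∧ Joined ω (1, 0) z)
      = Pool.Agent.Helper69.RSW.P (edgesIn (dstrip L M)) (fun ω =>
        ∃ z : ℤ × ℤ, z.1 + z.2 = L ∧ Joined (ω ∩ edgesIn (dstrip L M)) (1, 0) z) := by
        apply P_congr
        intro S hS
        rw [inter_eq_left.2 hS]
    _ = _ := h1.symm
    _ ≤ _ := by
        apply P_mono
        rintro S _ ⟨z, hz, hj⟩
        exact ⟨z, hz, joined_mono inter_subset_left hj⟩

lemma nrm_zb (n : ℕ) : IP.nrm n zb = 1 := by
  unfold IP.nrm IP.s zb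
  apply prod_eq_one
  intro j _
  have : Real.pi / 3 + (0 + Real.pi / 6) = Real.pi / 2 := by ring
  rw [this, Real.sin_pi_div_two, one_pow]

lemma T_zb (n : ℕ) : IP.T n zb = IP.Tt n zb := by
  unfold IP.T
  rw [nrm_zb, inv_one, one_smul]

lemma zb_eq : zb = 0 := rfl

/-- proved in Sweep.lean (helper92) -/
def SweepThm : Prop := ∀ (n : ℕ) (T : ℤ) (m : ℕ),
  law (2 * n + 1) (edgesIn (reg n (2 * T + 1) (2 * (T + m) + 1))) (fr n (T + m)) =
    ((IP.Tt n zb) ^ m) (Finsupp.single (IP.bot n) 1)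

/-- the strip probability at odd heights -/
theorem pStrip_eq (hS : SweepThm) (n : ℕ) (hn : 1 ≤ n) (N : ℕ) :
    pStrip (2 * n + 1) (2 * N + 1) =
      IP.hull n (((IP.T n 0) ^ (N + 1)) (Finsupp.single (IP.bot n) 1))
        (((IP.T n 0) ^ N) (Finsupp.single (IP.bot n) 1)) := by
  rw [pStrip_law n hn, ← zb_eq, T_zb]
  have h1 := hS n (-(N + 1 : ℕ)) (N + 1)
  have h2 := hS n (-(N : ℕ)) N
  have a1 : 2 * (-(((N + 1 : ℕ)) : ℤ)) + 1 = -(2 * N + 1) := by push_cast; ring
  have a2 : -(((N + 1 : ℕ)) : ℤ) + ((N + 1 : ℕ) : ℤ) = 0 := by ring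
  have a3 : 2 * (-((N : ℕ) : ℤ)) + 1 = 1 - 2 * N := by ring
  have a4 : -((N : ℕ) : ℤ) + ((N : ℕ) : ℤ) = 0 := by ring
  rw [a1, a2] at h1
  rw [a3, a4] at h2
  simp only [mul_zero, zero_add] at h1 h2
  rw [h1, h2]

theorem strip_limit (hS : SweepThm) (n : ℕ) (hn : 1 ≤ n) :
    Tendsto (fun M : ℕ => pStrip (2 * n + 1) M) atTop (𝓝 (IP.hull n (IP.P n zb) (IP.P n zb))) := by
  have h := IP.PG.hull_T_tendsto n
  rw [zb_eq]
  have hodd : Tendsto (fun N : ℕ => pStrip (2 * n + 1) (2 * N + 1)) atTop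
      (𝓝 (IP.hull n (IP.P n 0) (IP.P n 0))) := by
    refine h.congr fun N => ?_
    rw [pStrip_eq hS n hn N]
  have hmono : Monotone (fun M : ℕ => pStrip (2 * n + 1) (M : ℤ)) := by
    intro M M' hM
    exact pStrip_mono (by exact_mod_cast hM)
  have hsub : Tendsto (fun N : ℕ => 2 * N + 1) atTop atTop :=
    tendsto_atTop_mono (fun N => by simp only [id]; omega) tendsto_id
  rw [tendsto_iff_tendsto_subseq_of_monotone hmono hsub]
  refine hodd.congr fun N => ?_
  simp only [Function.comp_apply]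
  push_cast
  rfl

end H47Perc.DS
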